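import Mathlib

/-! # Extension of a linearly independent family to a basis -/

set_option autoImplicit false

namespace Pool.Agent.Q285.UL

open Module

theorem exists_extend {ι : Type} [Finite ι] {V : Type} [AddCommGroup V] [Module ℂ V]
    [FiniteDimensional ℂ V] (v : ι → V) (hv : LinearIndependent ℂ v) :
    ∃ (τ : Type) (_ : Fintype τ) (b : Basis (ι ⊕ τ) ℂ V), ∀ i, b (Sum.inl i) = v i := by
  classical
  let b := Basis.sumExtend hv
  have h1 : Finite (ι ⊕ Basis.sumExtendIndex hv) := Module.Finite.finite_basis b
  have h2 : Finite (Basis.sumExtendIndex hv) := Finite.of_injective (Sum.inr : _ → ι ⊕ _)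
    Sum.inr_injective
  refine ⟨Basis.sumExtendIndex hv, Fintype.ofFinite _, b, fun i => ?_⟩
  simp only [b, Basis.sumExtend, Basis.reindex_apply]
  exact (Basis.extend_apply_self _ _).trans rfl

end Pool.Agent.Q285.UL
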