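import Pool.Agent.Q285.UL.Lin

/-! # Points whose coordinates generate a field of the right transcendence degree are generic -/

set_option autoImplicit false

namespace Pool.Agent.Q285.UL

open MvPolynomial Pool.Agent.TH314.PD Module Pool.Agent.Q35.PL

noncomputable section

/-- the field of ratios is generated by the ratios with a fixed denominator -/
theorem ratio_le {E : Type} [Field E] [Algebra ℂ E] {m : ℕ} (x : Fin m → E) (b : Fin m)
    (hb : x b ≠ 0) :
    ratioField x ≤ IntermediateField.adjoin ℂ (Set.range fun i => x i / x b) := by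
  refine IntermediateField.adjoin_le_iff.2 ?_
  rintro _ ⟨i, j, rfl⟩
  have h1 : x i / x j = (x i / x b) / (x j / x b) := by
    by_cases hj : x j = 0
    · rw [hj]
      simp
    · field_simp
  rw [h1]
  exact div_mem (IntermediateField.subset_adjoin _ _ ⟨i, rfl⟩)
    (IntermediateField.subset_adjoin _ _ ⟨j, rfl⟩)

/-- a field generated by a set is algebraic over the algebra generated by this set -/
theorem alg_of_top {E : Type} [Field E] [Algebra ℂ E] (s : Set E)
    (hs : IntermediateField.adjoin ℂ s = ⊤) : Algebra.IsAlgebraic (Algebra.adjoin ℂ s) E := by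
  refine ⟨fun z => ?_⟩
  have hz : z ∈ IntermediateField.adjoin ℂ s := by
    rw [hs]
    trivial
  rw [IntermediateField.mem_adjoin_iff_div] at hz
  obtain ⟨u, hu, w, hw, rfl⟩ := hz
  by_cases h0 : w = 0
  · rw [h0, div_zero]
    exact isAlgebraic_zero
  · refine ⟨Polynomial.C ⟨w, hw⟩ * Polynomial.X - Polynomial.C ⟨u, hu⟩, ?_, ?_⟩
    · intro h
      have h1 := congrArg (fun p => Polynomial.coeff p 1) h
      simp at h1
      exact h0 (congrArg Subtype.val h1)
    · rw [map_sub, map_mul, Polynomial.aeval_C, Polynomial.aeval_C, Polynomial.aeval_X]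
      have h2 : algebraMap (Algebra.adjoin ℂ s) E ⟨w, hw⟩ = w := rfl
      have h3 : algebraMap (Algebra.adjoin ℂ s) E ⟨u, hu⟩ = u := rfl
      rw [h2, h3]
      field_simp
      ring

/-- genericity -/
theorem generic_of_full {n : ℕ} (hn : 1 ≤ n) {F : MvPolynomial (Fin (n + 2)) ℂ}
    (hF : F.IsHomogeneous 3)
    (hsm : ∀ z : Fin (n + 2) → ℂ, (∀ i, eval z (pderiv i F) = 0) → z = 0)
    {E : Type} [Field E] [Algebra ℂ E] (x : Fin (n + 2) → E) (hx : ∃ b, x b ≠ 0)
    (y : Fin n → E) (hy : AlgebraicIndependent ℂ y) (hfull : ratioField x = ⊤)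
    (hxF : aeval x F = 0) {e : ℕ} {H : MvPolynomial (Fin (n + 2)) ℂ} (hH : H.IsHomogeneous e)
    (hxH : aeval x H = 0) : F ∣ H := by
  classical
  have hirr : Irreducible F := Pool.Agent.TH214.RM.irreducible_of_smooth hn F 3 (by norm_num) hF
    fun i => jac_radical hsm i
  have hpr : Prime F := hirr.prime
  obtain ⟨b, hb⟩ := hx
  have htop : IntermediateField.adjoin ℂ (Set.range fun i => x i / x b) = ⊤ :=
    top_le_iff.1 (hfull ▸ ratio_le x b hb)
  have halg := alg_of_top _ htop
  obtain ⟨t, hts, ht⟩ := exists_isTranscendenceBasis_subset (R := ℂ)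
    (Set.range fun i => x i / x b)
  have hc1 : Cardinal.mk (Fin n) ≤ Cardinal.mk t := by
    rw [ht.cardinalMk_eq_trdeg]
    exact hy.cardinalMk_le_trdeg
  obtain ⟨g⟩ := hc1
  have hex : ∀ j : Fin n, ∃ i : Fin (n + 2), x i / x b = (g j : E) := fun j => hts (g j).2
  choose ι hι using hex
  have hu : AlgebraicIndependent ℂ (fun j : Fin n => x (ι j) / x b) := by
    have h1 := ht.1.comp g g.injective
    have h2 : (fun j : Fin n => x (ι j) / x b) = (fun a : t => (a : E)) ∘ g := by
      funext j
      exact hι j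
    rw [h2]
    exact h1
  refine dom_of_indep hF (by norm_num) hpr.ne_zero
    (fun _ _ A B _ _ h => hpr.dvd_or_dvd h) (aeval x) (Fin.cons b ι) hxF ?_ hH hxH
  intro l A hA h0
  rw [aeval_rename] at h0
  set u : Fin n → E := fun j => x (ι j) / x b with hudef
  have h1 : x ∘ (Fin.cons b ι : Fin (n + 1) → Fin (n + 2)) =
      fun i => x b * (Fin.cons 1 u : Fin (n + 1) → E) i := by
    funext i
    refine Fin.cases ?_ (fun j => ?_) i
    · simp
    · simp only [Function.comp_apply, Fin.cons_succ, hudef]
      field_simp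
  rw [h1, aeval_smul_form hA] at h0
  have h2 : aeval (Fin.cons 1 u : Fin (n + 1) → E) A = 0 :=
    (mul_eq_zero.1 h0).resolve_left (pow_ne_zero _ hb)
  set A' : MvPolynomial (Fin n) ℂ :=
    aeval (Fin.cons 1 X : Fin (n + 1) → MvPolynomial (Fin n) ℂ) A with hA'
  have h3 : aeval u A' = 0 := by
    rw [hA', aeval_comp, ← h2]
    congr 2
    funext i
    refine Fin.cases ?_ (fun j => ?_) i
    · rw [Fin.cons_zero, Fin.cons_zero, map_one]
    · rw [Fin.cons_succ, Fin.cons_succ, aeval_X]
  have h4 : A' = 0 := hu (by rw [h3, map_zero])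
  have h5 : X 0 * A = 0 := by
    refine MvPolynomial.funext fun p => ?_
    rw [map_mul, eval_X, map_zero]
    by_cases hp : p 0 = 0
    · rw [hp, zero_mul]
    · have h6 : p = fun i => p 0 * (Fin.cons 1 (fun j => p j.succ / p 0) : Fin (n + 1) → ℂ) i := by
        funext i
        refine Fin.cases ?_ (fun j => ?_) i
        · simp
        · simp only [Fin.cons_succ]
          field_simp
      have h7 : eval (Fin.cons 1 (fun j => p j.succ / p 0) : Fin (n + 1) → ℂ) A = 0 := by
        have h8 : aeval (fun j => p j.succ / p 0) A' = 0 := by rw [h4, map_zero]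
        rw [hA', aeval_comp] at h8
        rw [← aeval_eq_eval, ← h8]
        congr 2
        funext i
        refine Fin.cases ?_ (fun j => ?_) i
        · rw [Fin.cons_zero, Fin.cons_zero, map_one]
        · rw [Fin.cons_succ, Fin.cons_succ, aeval_X]
      have h9 : eval p A = 0 := by
        rw [h6, ← aeval_eq_eval, aeval_smul_form hA, aeval_eq_eval, h7, mul_zero]
      rw [h9, mul_zero]
  exact (mul_eq_zero.1 h5).resolve_left (X_ne_zero _)

end

end Pool.Agent.Q285.UL
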