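import Mathlib
import Pool.Agent.Q35.PL.Cub
import Pool.Agent.TH314.PD.Restr
import Pool.Agent.TH214.RM.Irr

/-! # Project UL, job RAT: preparations -/

set_option autoImplicit false

namespace Pool.Agent.Q285.UL

open MvPolynomial Pool.Agent.TH314.PD Module Pool.Agent.Q35.PL

noncomputable section

/-- the third point of intersection of the line through two points of a cubic hypersurface -/
theorem third {n : ℕ} {F : MvPolynomial (Fin (n + 2)) ℂ} (hF : F.IsHomogeneous 3) {E : Type}
    [Field E] [Algebra ℂ E] (z y : Fin (n + 2) → E) (hz : aeval z F = 0) (hy : aeval y F = 0) :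
    aeval (fun i => (∑ j, z j * aeval y (pderiv j F)) * z i -
      (∑ j, y j * aeval z (pderiv j F)) * y i) F = 0 := by
  set A := ∑ j, y j * aeval z (pderiv j F) with hA
  set B := ∑ j, z j * aeval y (pderiv j F) with hB
  by_cases hB0 : B = 0
  · have h1 : (fun i => B * z i - A * y i) = fun i => (-A) * y i := by
      funext i
      rw [hB0]
      ring
    rw [h1, aeval_smul_form hF, hy, mul_zero]
  · have h1 : (fun i => B * z i - A * y i) = fun i => B * pt z y (-(A / B)) i := by
      funext i
      simp only [pt, Algebra.algebraMap_self, RingHom.id_apply]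
      field_simp
      ring
    rw [h1, aeval_smul_form hF, aeval_pt]
    have c0 : (bin F z y).coeff 0 = 0 := by rw [coeff_bin, hz]
    have c3 : (bin F z y).coeff 3 = 0 := by rw [(bin_top hF z y).2, hy]
    have c2 : (bin F z y).coeff 2 = B := bin_sub hF (by norm_num) z y
    have c1 : (bin F z y).coeff 1 = A := by
      classical
      set Y : Fin (n + 2) → Polynomial E := fun j =>
        Polynomial.C (z j) + Polynomial.X * Polynomial.C (y j) with hY
      have hD : ∑ i, aeval Y (pderiv i F) * Polynomial.C (y i) =
          Polynomial.derivative (bin F z y) := by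
        have h1 := chain_rule ((Polynomial.derivative' : Derivation E (Polynomial E)
          (Polynomial E)).restrictScalars ℂ) Y F
        have h2 : ((Polynomial.derivative' : Derivation E (Polynomial E)
            (Polynomial E)).restrictScalars ℂ) (aeval Y F) =
            Polynomial.derivative (bin F z y) := rfl
        rw [← h2, h1]
        refine Finset.sum_congr rfl fun i _ => ?_
        congr 1
        show _ = Polynomial.derivative (Y i)
        simp [hY]
      have h2 := congrArg (fun P => Polynomial.coeff P 0) hD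
      simp only [Polynomial.finsetSum_coeff, Polynomial.coeff_mul_C, Polynomial.coeff_derivative]
        at h2
      have h3 : ∀ i, (aeval Y (pderiv i F)).coeff 0 = aeval z (pderiv i F) := fun i =>
        coeff_bin z y (pderiv i F)
      simp only [h3] at h2
      norm_num at h2
      rw [← h2, hA]
      exact Finset.sum_congr rfl fun i _ => mul_comm _ _
    have hdeg : (bin F z y).natDegree < 4 := by
      have := (bin_top hF z y).1
      omega
    rw [Polynomial.aeval_eq_sum_range' hdeg]
    simp only [Finset.sum_range_succ, Finset.sum_range_zero, c0, c1, c2, c3, Algebra.smul_def,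
      Algebra.algebraMap_self, RingHom.id_apply]
    field_simp
    ring

/-- the coordinates belong to the radical of the Jacobian ideal -/
theorem jac_radical {r : ℕ} {F : MvPolynomial (Fin r) ℂ}
    (hsm : ∀ z : Fin r → ℂ, (∀ i, eval z (pderiv i F) = 0) → z = 0) (j : Fin r) :
    (X j : MvPolynomial (Fin r) ℂ) ∈ (Ideal.span (Set.range fun i => pderiv i F)).radical := by
  rw [← MvPolynomial.vanishingIdeal_zeroLocus_eq_radical (K := ℂ)]
  intro x hx
  have h0 : x = 0 := hsm x (fun i => by
    have h1 := hx (pderiv i F) (Ideal.subset_span ⟨i, rfl⟩)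
    rwa [aeval_eq_eval] at h1)
  rw [h0]
  simp

/-- smoothness over any reduced algebra -/
theorem zero_of_partials {r : ℕ} {F : MvPolynomial (Fin r) ℂ}
    (hsm : ∀ z : Fin r → ℂ, (∀ i, eval z (pderiv i F) = 0) → z = 0) {P : Type} [CommRing P]
    [IsDomain P] [Algebra ℂ P] (z : Fin r → P) (hz : ∀ i, aeval z (pderiv i F) = 0) : z = 0 := by
  have hI : ∀ p ∈ Ideal.span (Set.range fun i => pderiv i F), aeval z p = 0 := by
    intro p hp
    have h1 : Ideal.span (Set.range fun i => pderiv i F) ≤ RingHom.ker (aeval z) :=
      Ideal.span_le.mpr (by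
        rintro _ ⟨i, rfl⟩
        exact hz i)
    exact h1 hp
  funext j
  obtain ⟨n, hn⟩ := jac_radical hsm j
  have h2 := hI _ hn
  rw [map_pow, aeval_X] at h2
  exact eq_zero_of_pow_eq_zero h2

/-- the value of a linear form -/
def lf {m : ℕ} {P : Type} [CommRing P] [Algebra ℂ P] (L : (Fin m → ℂ) →ₗ[ℂ] ℂ) (w : Fin m → P) :
    P := ∑ i, algebraMap ℂ P (L (Pi.single i 1)) * w i

section
variable {m : ℕ} {P : Type} [CommRing P] [Algebra ℂ P] (L : (Fin m → ℂ) →ₗ[ℂ] ℂ)

theorem lf_add (w w' : Fin m → P) : lf L (fun i => w i + w' i) = lf L w + lf L w' := by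
  simp only [lf, mul_add, Finset.sum_add_distrib]

theorem lf_sub (w w' : Fin m → P) : lf L (fun i => w i - w' i) = lf L w - lf L w' := by
  simp only [lf, mul_sub, Finset.sum_sub_distrib]

theorem lf_smul (c : P) (w : Fin m → P) : lf L (fun i => c * w i) = c * lf L w := by
  simp only [lf, Finset.mul_sum]
  exact Finset.sum_congr rfl fun i _ => by ring

theorem lf_sum {ι : Type} (s : Finset ι) (w : ι → Fin m → P) :
    lf L (fun i => ∑ j ∈ s, w j i) = ∑ j ∈ s, lf L (w j) := by
  simp only [lf, Finset.mul_sum]
  rw [Finset.sum_comm]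

theorem lf_const (g : Fin m → ℂ) : lf L (fun i => algebraMap ℂ P (g i)) = algebraMap ℂ P (L g) := by
  have h1 : g = ∑ i, g i • (Pi.single i 1 : Fin m → ℂ) := by
    conv_lhs => rw [pi_eq_sum_univ' g]
  conv_rhs => rw [h1]
  simp only [lf, map_sum, map_smul, smul_eq_mul, map_mul]
  exact Finset.sum_congr rfl fun i _ => by ring

/-- the linear form -/
theorem lf_form (w : Fin m → P) : ∃ H : MvPolynomial (Fin m) ℂ, H.IsHomogeneous 1 ∧
    aeval w H = lf L w := by
  refine ⟨∑ i, C (L (Pi.single i 1)) * X i,
    IsHomogeneous.sum _ _ _ fun i _ => isHomogeneous_C_mul_X _ _, ?_⟩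
  rw [map_sum]
  simp only [map_mul, aeval_C, aeval_X, lf]

/-- a vector orthogonal to a basis is zero -/
theorem zero_of_basis {ι : Type} (b : Basis ι ℂ (Fin m → ℂ)) (w : Fin m → P)
    (h : ∀ j, ∑ i, algebraMap ℂ P (b j i) * w i = 0) : w = 0 := by
  have h1 : Fintype.linearCombination ℂ w = (0 : (Fin m → ℂ) →ₗ[ℂ] P) := by
    refine b.ext fun j => ?_
    rw [Fintype.linearCombination_apply, LinearMap.zero_apply, ← h j]
    exact Finset.sum_congr rfl fun i _ => Algebra.smul_def _ _
  funext i
  have h2 := LinearMap.congr_fun h1 (Pi.single i 1)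
  rw [Fintype.linearCombination_apply, LinearMap.zero_apply] at h2
  rw [Finset.sum_eq_single i (fun j _ hj => by rw [Pi.single_eq_of_ne hj, zero_smul])
    (fun h => absurd (Finset.mem_univ i) h), Pi.single_eq_same, one_smul] at h2
  exact h2

end

end

end Pool.Agent.Q285.UL
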