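import Pool.Agent.Q285.UL.Rat
import Pool.Agent.Q285.UL.Gen
import Pool.Agent.Q285.UL.Ext

/-! # Project UL, job RAT: the theorem -/

set_option autoImplicit false

namespace Pool.Agent.Q285.UL

open MvPolynomial Pool.Agent.TH314.PD Module Pool.Agent.Q35.PL Pool.Agent.Q35.UL

noncomputable section

theorem lf_map {m : ℕ} {P E : Type} [CommRing P] [Algebra ℂ P] [CommRing E] [Algebra ℂ E]
    [Algebra P E] [IsScalarTower ℂ P E] (L : (Fin m → ℂ) →ₗ[ℂ] ℂ) (w : Fin m → P) :
    lf L (fun i => algebraMap P E (w i)) = algebraMap P E (lf L w) := by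
  simp only [lf, map_sum, map_mul, IsScalarTower.algebraMap_apply ℂ P E]

theorem aeval_map {m : ℕ} {P E : Type} [CommRing P] [Algebra ℂ P] [CommRing E] [Algebra ℂ E]
    [Algebra P E] [IsScalarTower ℂ P E] (w : Fin m → P) (p : MvPolynomial (Fin m) ℂ) :
    aeval (fun i => algebraMap P E (w i)) p = algebraMap P E (aeval w p) := by
  have h1 := MvPolynomial.comp_aeval_apply (R := ℂ) (f := w) (IsScalarTower.toAlgHom ℂ P E) p
  rw [IsScalarTower.coe_toAlgHom'] at h1
  exact h1.symm

/-- polynomials -/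
abbrev PP (n : ℕ) : Type := MvPolynomial (Fin n) ℂ

/-- rational functions -/
abbrev EE (n : ℕ) : Type := FractionRing (PP n)

section
variable {n k' : ℕ} {τ : Type} [Fintype τ]

/-- the coordinates of the point of the linear space -/
theorem lf_yb (σ : Fin k' ⊕ τ ≃ Fin n) (e : Fin (k' + 1) → Fin (n + 2) → ℂ)
    (b : Basis (Option (Fin (k' + 1)) ⊕ τ) ℂ (Fin (n + 2) → ℂ))
    (hbe : ∀ a, b (Sum.inl (some a)) = e a) (j : Option (Fin (k' + 1)) ⊕ τ) :
    lf (b.coord j) (yy σ e) = Sum.elim (fun o => Option.elim o 0 (YY σ))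
      (fun _ => (0 : MvPolynomial (Fin n) ℂ)) j := by
  classical
  rw [lf_yy]
  simp only [← hbe, Basis.coord_apply, Basis.repr_self]
  rcases j with ((_ | a) | t)
  · simp
  · simp [Finsupp.single_apply]
  · simp

/-- the field generated by the ratios -/
theorem full (σ : Fin k' ⊕ τ ≃ Fin n) (p0 : Fin (n + 2) → ℂ) (f : τ → Fin (n + 2) → ℂ)
    {E : Type} [Field E] [Algebra ℂ E] [Algebra (MvPolynomial (Fin n) ℂ) E]
    [IsScalarTower ℂ (MvPolynomial (Fin n) ℂ) E] [IsFractionRing (MvPolynomial (Fin n) ℂ) E]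
    (b : Basis (Option (Fin (k' + 1)) ⊕ τ) ℂ (Fin (n + 2) → ℂ))
    (r : MvPolynomial (Fin (n + 2)) ℂ) (c : Fin (k' + 1) → MvPolynomial (Fin (n + 2)) ℂ)
    (A B : MvPolynomial (Fin n) ℂ) (hA : A ≠ 0) (hB : B ≠ 0)
    (hR : aeval (vv σ p0 f) r ≠ 0)
    (x : Fin (n + 2) → MvPolynomial (Fin n) ℂ)
    (hn : lf (b.coord (Sum.inl none)) x = B * aeval (vv σ p0 f) r)
    (ha : ∀ a, lf (b.coord (Sum.inl (some a))) x = B * aeval (vv σ p0 f) (c a) - A * YY σ a)
    (ht : ∀ t, lf (b.coord (Sum.inr t)) x =
      B * (aeval (vv σ p0 f) r * X (σ (Sum.inr t)))) :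
    (∃ i, algebraMap (MvPolynomial (Fin n) ℂ) E (x i) ≠ 0) ∧
      ratioField (fun i => algebraMap (MvPolynomial (Fin n) ℂ) E (x i)) = ⊤ := by
  set R := aeval (vv σ p0 f) r with hRdef
  set X' : Fin (n + 2) → E := fun i => algebraMap (PP n) E (x i) with hX'
  have hinj : Function.Injective (algebraMap (PP n) E) := IsFractionRing.injective (PP n) E
  have hAE : algebraMap (PP n) E A ≠ 0 := fun h => hA (hinj (by rw [h, map_zero]))
  have hBE : algebraMap (PP n) E B ≠ 0 := fun h => hB (hinj (by rw [h, map_zero]))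
  have hRE : algebraMap (PP n) E R ≠ 0 := fun h => hR (hinj (by rw [h, map_zero]))
  have hex : ∃ i, X' i ≠ 0 := by
    by_contra hno
    push Not at hno
    have h1 : lf (b.coord (Sum.inl none)) X' = 0 := by
      simp only [lf, hno, mul_zero, Finset.sum_const_zero]
    rw [hX', lf_map, hn, map_mul] at h1
    exact (mul_ne_zero hBE hRE) h1
  refine ⟨hex, ?_⟩
  set K := ratioField X' with hK
  have hrat : ∀ j j', algebraMap (PP n) E (lf (b.coord j) x) / algebraMap (PP n) E (lf (b.coord j') x) ∈
      K := by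
    intro j j'
    obtain ⟨H, hH, hH'⟩ := lf_form (b.coord j) X'
    obtain ⟨H2, hH2, hH2'⟩ := lf_form (b.coord j') X'
    have h1 := ratio_mem X' hex hH hH2
    rw [hH', hH2', hX', lf_map, lf_map] at h1
    exact h1
  -- the coordinates of the complement
  have hXt : ∀ t, algebraMap (PP n) E (X (σ (Sum.inr t))) ∈ K := by
    intro t
    have h1 := hrat (Sum.inr t) (Sum.inl none)
    rw [ht, hn, map_mul, map_mul, map_mul] at h1
    have h2 : algebraMap (PP n) E B * (algebraMap (PP n) E R * algebraMap (PP n) E (X (σ (Sum.inr t)))) /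
        (algebraMap (PP n) E B * algebraMap (PP n) E R) = algebraMap (PP n) E (X (σ (Sum.inr t))) := by
      field_simp
    rw [h2] at h1
    exact h1
  have hv : ∀ i, algebraMap (PP n) E (vv σ p0 f i) ∈ K := by
    intro i
    rw [vv, map_add, map_sum]
    refine add_mem ?_ (sum_mem fun t _ => ?_)
    · rw [← MvPolynomial.algebraMap_eq, ← IsScalarTower.algebraMap_apply ℂ (PP n) E]
      exact K.algebraMap_mem _
    · rw [map_mul]
      refine mul_mem (hXt t) ?_
      rw [← MvPolynomial.algebraMap_eq, ← IsScalarTower.algebraMap_apply ℂ (PP n) E]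
      exact K.algebraMap_mem _
  have hvp : ∀ p : MvPolynomial (Fin (n + 2)) ℂ, algebraMap (PP n) E (aeval (vv σ p0 f) p) ∈ K := by
    intro p
    induction p using MvPolynomial.induction_on with
    | C a =>
      rw [aeval_C, ← IsScalarTower.algebraMap_apply ℂ (PP n) E]
      exact K.algebraMap_mem a
    | add f g hf hg =>
      rw [map_add, map_add]
      exact add_mem hf hg
    | mul_X f i hf =>
      rw [map_mul, map_mul, aeval_X]
      exact mul_mem hf (hv i)
  have hq : ∀ a, algebraMap (PP n) E A * algebraMap (PP n) E (YY σ a) /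
      (algebraMap (PP n) E B * algebraMap (PP n) E R) ∈ K := by
    intro a
    have h1 := hrat (Sum.inl (some a)) (Sum.inl none)
    rw [ha, hn, map_sub, map_mul, map_mul, map_mul] at h1
    have h2 : algebraMap (PP n) E (aeval (vv σ p0 f) (c a)) / algebraMap (PP n) E R ∈ K :=
      div_mem (hvp (c a)) (hvp r)
    have h3 := sub_mem h2 h1
    have h4 : algebraMap (PP n) E (aeval (vv σ p0 f) (c a)) / algebraMap (PP n) E R -
        (algebraMap (PP n) E B * algebraMap (PP n) E (aeval (vv σ p0 f) (c a)) -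
          algebraMap (PP n) E A * algebraMap (PP n) E (YY σ a)) / (algebraMap (PP n) E B * algebraMap (PP n) E R) =
        algebraMap (PP n) E A * algebraMap (PP n) E (YY σ a) / (algebraMap (PP n) E B * algebraMap (PP n) E R) := by
      field_simp
      ring
    rw [h4] at h3
    exact h3
  have hYa : ∀ a, algebraMap (PP n) E (YY σ a) ∈ K := by
    intro a
    have h0 := hq 0
    have hY0 : YY σ (0 : Fin (k' + 1)) = 1 := rfl
    rw [hY0, map_one, mul_one] at h0
    have h1 := div_mem (hq a) h0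
    have h2 : algebraMap (PP n) E A * algebraMap (PP n) E (YY σ a) /
        (algebraMap (PP n) E B * algebraMap (PP n) E R) /
        (algebraMap (PP n) E A / (algebraMap (PP n) E B * algebraMap (PP n) E R)) =
        algebraMap (PP n) E (YY σ a) := by
      field_simp
    rw [h2] at h1
    exact h1
  have hXs : ∀ s, algebraMap (PP n) E (X s) ∈ K := by
    intro s
    rcases hs : σ.symm s with a | t
    · have h1 : s = σ (Sum.inl a) := by rw [← hs, Equiv.apply_symm_apply]
      rw [h1]
      exact hYa a.succ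
    · have h1 : s = σ (Sum.inr t) := by rw [← hs, Equiv.apply_symm_apply]
      rw [h1]
      exact hXt t
  have hPK : ∀ p : (PP n), algebraMap (PP n) E p ∈ K := by
    intro p
    induction p using MvPolynomial.induction_on with
    | C a =>
      rw [← MvPolynomial.algebraMap_eq, ← IsScalarTower.algebraMap_apply ℂ (PP n) E]
      exact K.algebraMap_mem a
    | add f g hf hg =>
      rw [map_add]
      exact add_mem hf hg
    | mul_X f i hf =>
      rw [map_mul]
      exact mul_mem hf (hXs i)
  refine top_le_iff.1 fun z _ => ?_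
  obtain ⟨u, w, _, rfl⟩ := IsFractionRing.div_surjective (A := (PP n)) z
  exact div_mem (hPK u) (hPK w)

/-- the construction -/
theorem rat_core (hn : 1 ≤ n) {F : MvPolynomial (Fin (n + 2)) ℂ} (hF : F.IsHomogeneous 3)
    (hsm : ∀ z : Fin (n + 2) → ℂ, (∀ i, eval z (pderiv i F) = 0) → z = 0)
    (σ : Fin k' ⊕ τ ≃ Fin n) (e : Fin (k' + 1) → Fin (n + 2) → ℂ)
    (b : Basis (Option (Fin (k' + 1)) ⊕ τ) ℂ (Fin (n + 2) → ℂ))
    (hbe : ∀ a, b (Sum.inl (some a)) = e a)
    (hU : ∀ c : Fin (k' + 1) → ℂ, eval (fun i => ∑ a, c a * e a i) F = 0)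
    (r : MvPolynomial (Fin (n + 2)) ℂ) (c : Fin (k' + 1) → MvPolynomial (Fin (n + 2)) ℂ)
    (hr : eval (b (Sum.inl none)) r ≠ 0)
    (hsec : aeval (fun i => r * X i + ∑ a, c a * C (e a i)) F = 0) :
    ∃ G : Fin (n + 2) → MvPolynomial (Fin n) ℂ, aeval G F = 0 ∧
      (∀ (e : ℕ) (H : MvPolynomial (Fin (n + 2)) ℂ), H.IsHomogeneous e → aeval G H = 0 →
        F ∣ H) ∧
      finrank (ratioField fun i => algebraMap (MvPolynomial (Fin n) ℂ)
        (FractionRing (MvPolynomial (Fin n) ℂ)) (G i)) (FractionRing (MvPolynomial (Fin n) ℂ)) =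
          1 := by
  set p0 := b (Sum.inl none) with hp0
  set f : τ → Fin (n + 2) → ℂ := fun t => b (Sum.inr t) with hf
  set v := vv σ p0 f with hv
  set y := yy σ e with hy
  set R := aeval v r with hRdef
  set cc : Fin (k' + 1) → PP n := fun a => aeval v (c a) with hcc
  set z : Fin (n + 2) → PP n := fun i => R * v i + ∑ a, cc a * C (e a i) with hz
  have hR : R ≠ 0 := by
    intro h
    apply hr
    have h1 : aeval (0 : Fin n → ℂ) (aeval v r) = 0 := by
      rw [← hRdef, h, map_zero]
    rw [aeval_comp] at h1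
    rw [← aeval_eq_eval, ← h1]
    congr 2
    funext i
    rw [hv, vv, map_add, map_sum, aeval_C, Finset.sum_eq_zero (fun t _ => by
      rw [map_mul, aeval_X, Pi.zero_apply, zero_mul]), add_zero]
    rfl
  have hyF : aeval y F = 0 := by
    refine MvPolynomial.funext fun q => ?_
    rw [map_zero, ← aeval_eq_eval, aeval_comp, aeval_eq_eval, ← hU fun a => eval q (YY σ a)]
    congr 2
    funext i
    rw [hy, yy, map_sum, aeval_eq_eval]
    exact Finset.sum_congr rfl fun a _ => by rw [map_mul, eval_C]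
  have hzF : aeval z F = 0 := by
    have h1 : z = fun i => aeval v (r * X i + ∑ a, c a * C (e a i)) := by
      funext i
      rw [map_add, map_mul, aeval_X, map_sum, hz]
      refine congrArg₂ (· + ·) rfl (Finset.sum_congr rfl fun a _ => ?_)
      rw [map_mul, aeval_C]
      rfl
    rw [h1, ← aeval_comp, hsec, map_zero]
  set A : PP n := ∑ j, y j * aeval z (pderiv j F) with hA
  set B : PP n := ∑ j, z j * aeval y (pderiv j F) with hB
  have hA0 : A ≠ 0 := A_ne σ p0 f e hF hsm b hbe rfl (fun _ => rfl) R cc hR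
    (fun a => d_aeval _ _ (fun i => d_yv σ p0 f a i) r)
    (fun a a' => d_aeval _ _ (fun i => d_yv σ p0 f a i) (c a')) z (fun _ => rfl) hzF
  have hB0 : B ≠ 0 := B_ne σ p0 f e hF hsm b hbe rfl (fun _ => rfl) hyF R cc hR z
    (fun _ => rfl)
  set G : Fin (n + 2) → PP n := fun i => B * z i - A * y i with hG
  have hinj : Function.Injective (algebraMap (PP n) (EE n)) := IsFractionRing.injective (PP n) (EE n)
  have hGF : aeval G F = 0 := by
    apply hinj
    rw [← aeval_map, map_zero]
    have h1 := third hF (fun i => algebraMap (PP n) (EE n) (z i)) (fun i => algebraMap (PP n) (EE n) (y i))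
      (by rw [aeval_map, hzF, map_zero]) (by rw [aeval_map, hyF, map_zero])
    rw [← h1]
    congr 2
    funext i
    simp only [hG, hA, hB, map_sub, map_mul, map_sum, aeval_map]
  have hlf : ∀ j, lf (b.coord j) G = B * lf (b.coord j) z - A * lf (b.coord j) y := by
    intro j
    rw [hG, lf_sub, lf_smul, lf_smul]
  have hful := full (E := EE n) σ p0 f b r c A B hA0 hB0 hR G
    (by
      rw [hlf, lf_zz σ p0 f e b hbe rfl (fun _ => rfl) R cc z (fun _ => rfl), lf_yb σ e b hbe]
      simp [hRdef, hv])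
    (fun a => by
      rw [hlf, lf_zz σ p0 f e b hbe rfl (fun _ => rfl) R cc z (fun _ => rfl), lf_yb σ e b hbe]
      simp [hcc, hv])
    (fun t => by
      rw [hlf, lf_zz σ p0 f e b hbe rfl (fun _ => rfl) R cc z (fun _ => rfl), lf_yb σ e b hbe]
      simp [hRdef, hv])
  refine ⟨G, hGF, fun l H hH hGH => ?_, ?_⟩
  · refine generic_of_full hn hF hsm (fun i => algebraMap (PP n) (EE n) (G i)) hful.1
      (fun s => algebraMap (PP n) (EE n) (X s)) ?_ hful.2 (by rw [aeval_map, hGF, map_zero]) hH
      (by rw [aeval_map, hGH, map_zero])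
    intro p q hpq
    rw [aeval_map, aeval_map] at hpq
    have h1 := hinj hpq
    rwa [aeval_X_left, AlgHom.id_apply, AlgHom.id_apply] at h1
  · rw [hful.2]
    exact IntermediateField.finrank_top

end

/-- **Job RAT.** -/
theorem rat : S_RAT := by
  intro n k F hn hF hsm e he hU hsecn
  classical
  obtain ⟨r, c, hr, hsec⟩ := hsecn
  have hF0 : F ≠ 0 := by
    rintro rfl
    have h1 := hsm (fun _ => 1) (fun i => by rw [map_zero, map_zero])
    exact one_ne_zero (congrFun h1 0)
  rcases k with _ | k'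
  · exfalso
    simp only [Finset.univ_eq_empty, Finset.sum_empty, add_zero] at hsec
    rw [aeval_smul_form hF, aeval_X_left, AlgHom.id_apply] at hsec
    exact (mul_ne_zero (pow_ne_zero 3 hr) hF0) hsec
  have hlt : Submodule.span ℂ (Set.range e) < ⊤ := by
    rw [lt_top_iff_ne_top]
    intro htop
    apply hF0
    refine MvPolynomial.funext fun q => ?_
    have h1 : q ∈ Submodule.span ℂ (Set.range e) := by
      rw [htop]
      trivial
    rw [Submodule.mem_span_range_iff_exists_fun] at h1
    obtain ⟨cq, hcq⟩ := h1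
    rw [map_zero, ← hU cq]
    congr 2
    funext i
    rw [← hcq, Finset.sum_apply]
    rfl
  obtain ⟨l, hl0, hl⟩ := Submodule.exists_le_ker_of_lt_top _ hlt
  set Lp : MvPolynomial (Fin (n + 2)) ℂ := ∑ i, C (l (Pi.single i 1)) * X i with hLp
  have hLe : ∀ q : Fin (n + 2) → ℂ, eval q Lp = l q := by
    intro q
    rw [hLp, map_sum]
    conv_rhs => rw [pi_eq_sum_univ' q, map_sum]
    exact Finset.sum_congr rfl fun i _ => by
      rw [map_mul, eval_C, eval_X, map_smul, smul_eq_mul, mul_comm]
  have hLp0 : Lp ≠ 0 := by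
    intro h
    apply hl0
    refine LinearMap.ext fun q => ?_
    rw [LinearMap.zero_apply, ← hLe, h, map_zero]
  obtain ⟨p0, hp0⟩ : ∃ p0 : Fin (n + 2) → ℂ, eval p0 (r * Lp) ≠ 0 := by
    by_contra hno
    push Not at hno
    exact (mul_ne_zero hr hLp0) (MvPolynomial.funext fun q => by rw [hno q, map_zero])
  rw [map_mul] at hp0
  have hp1 : p0 ∉ Submodule.span ℂ (Set.range e) := by
    intro h
    have h1 : l p0 = 0 := hl h
    rw [hLe, h1, mul_zero] at hp0
    exact hp0 rfl
  have hli : LinearIndependent ℂ (fun o => Option.casesOn' o p0 e :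
      Option (Fin (k' + 1)) → Fin (n + 2) → ℂ) := linearIndependent_option'.2 ⟨he, hp1⟩
  obtain ⟨τ, hτ, b, hb⟩ := exists_extend _ hli
  have hcard : Fintype.card (Fin k' ⊕ τ) = Fintype.card (Fin n) := by
    have h1 := Module.finrank_eq_card_basis b
    rw [Module.finrank_fin_fun, Fintype.card_sum, Fintype.card_option, Fintype.card_fin] at h1
    rw [Fintype.card_sum, Fintype.card_fin, Fintype.card_fin]
    omega
  exact rat_core hn hF hsm (Fintype.equivOfCardEq hcard) e b (fun a => hb (some a)) hU r c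
    (by
      have h1 : b (Sum.inl none) = p0 := hb none
      rw [h1]
      exact left_ne_zero_of_mul hp0) hsec

end

end Pool.Agent.Q285.UL
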