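import Pool.Agent.Q285.UL.Lin
import Pool.Agent.Q35.UL.Stm

/-! # Project UL, job RAT: a smooth cubic hypersurface with a linear subspace whose quadric bundle has a
rational section is rational -/

set_option autoImplicit false

namespace Pool.Agent.Q285.UL

open MvPolynomial Pool.Agent.TH314.PD Module Pool.Agent.Q35.PL

noncomputable section

variable {n k' : ℕ} {τ : Type} [Fintype τ]

/-- the general point of the complement -/
def vv (σ : Fin k' ⊕ τ ≃ Fin n) (p0 : Fin (n + 2) → ℂ) (f : τ → Fin (n + 2) → ℂ) :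
    Fin (n + 2) → MvPolynomial (Fin n) ℂ :=
  fun i => C (p0 i) + ∑ t, X (σ (Sum.inr t)) * C (f t i)

/-- the parameters of the point of the linear space -/
def YY (σ : Fin k' ⊕ τ ≃ Fin n) : Fin (k' + 1) → MvPolynomial (Fin n) ℂ :=
  Fin.cons 1 fun a => X (σ (Sum.inl a))

/-- the general point of the linear space -/
def yy (σ : Fin k' ⊕ τ ≃ Fin n) (e : Fin (k' + 1) → Fin (n + 2) → ℂ) :
    Fin (n + 2) → MvPolynomial (Fin n) ℂ :=
  fun i => ∑ a, YY σ a * C (e a i)

section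
variable (σ : Fin k' ⊕ τ ≃ Fin n) (p0 : Fin (n + 2) → ℂ) (f : τ → Fin (n + 2) → ℂ)
  (e : Fin (k' + 1) → Fin (n + 2) → ℂ)

theorem d_yv (a : Fin k') (i : Fin (n + 2)) : pderiv (σ (Sum.inl a)) (vv σ p0 f i) = 0 := by
  classical
  rw [vv, map_add, pderiv_C, map_sum, zero_add]
  refine Finset.sum_eq_zero fun t _ => ?_
  rw [pderiv_mul, pderiv_C, mul_zero, add_zero, pderiv_X_of_ne, zero_mul]
  intro h
  exact Sum.inr_ne_inl (σ.injective h)

theorem d_vv (t : τ) (i : Fin (n + 2)) : pderiv (σ (Sum.inr t)) (vv σ p0 f i) = C (f t i) := by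
  classical
  rw [vv, map_add, pderiv_C, map_sum, zero_add]
  rw [Finset.sum_eq_single t (fun s _ hs => ?_) fun h => absurd (Finset.mem_univ t) h]
  · rw [pderiv_mul, pderiv_C, mul_zero, add_zero, pderiv_X_self, one_mul]
  · rw [pderiv_mul, pderiv_C, mul_zero, add_zero, pderiv_X_of_ne, zero_mul]
    intro h
    exact hs (Sum.inr_injective (σ.injective h))

theorem d_yy (a : Fin k') (i : Fin (n + 2)) :
    pderiv (σ (Sum.inl a)) (yy σ e i) = C (e a.succ i) := by
  classical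
  rw [yy, map_sum, Fin.sum_univ_succ]
  have h0 : pderiv (σ (Sum.inl a)) (YY σ 0 * C (e 0 i)) = 0 := by
    rw [YY, Fin.cons_zero, one_mul, pderiv_C]
  rw [h0, zero_add]
  rw [Finset.sum_eq_single a (fun s _ hs => ?_) fun h => absurd (Finset.mem_univ a) h]
  · rw [YY, Fin.cons_succ, pderiv_mul, pderiv_C, mul_zero, add_zero, pderiv_X_self, one_mul]
  · rw [YY, Fin.cons_succ, pderiv_mul, pderiv_C, mul_zero, add_zero, pderiv_X_of_ne, zero_mul]
    intro h
    exact hs (Sum.inl_injective (σ.injective h))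

theorem d_vy (t : τ) (i : Fin (n + 2)) : pderiv (σ (Sum.inr t)) (yy σ e i) = 0 := by
  classical
  rw [yy, map_sum, Fin.sum_univ_succ]
  have h0 : pderiv (σ (Sum.inr t)) (YY σ 0 * C (e 0 i)) = 0 := by
    rw [YY, Fin.cons_zero, one_mul, pderiv_C]
  rw [h0, zero_add]
  refine Finset.sum_eq_zero fun s _ => ?_
  rw [YY, Fin.cons_succ, pderiv_mul, pderiv_C, mul_zero, add_zero, pderiv_X_of_ne, zero_mul]
  intro h
  exact Sum.inl_ne_inr (σ.injective h)

end

/-- derivatives of values -/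
theorem d_aeval {m : ℕ} (s : Fin n) (w : Fin m → MvPolynomial (Fin n) ℂ)
    (hw : ∀ i, pderiv s (w i) = 0) (p : MvPolynomial (Fin m) ℂ) : pderiv s (aeval w p) = 0 := by
  rw [chain_rule (pderiv s) w p]
  exact Finset.sum_eq_zero fun i _ => by rw [hw, mul_zero]

theorem euler3 {m : ℕ} {F : MvPolynomial (Fin m) ℂ} (hF : F.IsHomogeneous 3) {P : Type}
    [CommRing P] [Algebra ℂ P] (w : Fin m → P) (h : aeval w F = 0) :
    ∑ i, w i * aeval w (pderiv i F) = 0 := by
  have h1 := congrArg (aeval w) hF.sum_X_mul_pderiv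
  rw [map_sum, map_nsmul, h, smul_zero] at h1
  simp only [map_mul, aeval_X] at h1
  exact h1

/-- the pairing of a vector with constant coordinates and a vector -/
def pa {m : ℕ} {P : Type} [CommRing P] [Algebra ℂ P] (g : Fin m → ℂ) (w : Fin m → P) : P :=
  ∑ i, algebraMap ℂ P (g i) * w i

section
variable (σ : Fin k' ⊕ τ ≃ Fin n) (p0 : Fin (n + 2) → ℂ) (f : τ → Fin (n + 2) → ℂ)
  (e : Fin (k' + 1) → Fin (n + 2) → ℂ)

theorem sum_yy (w : Fin (n + 2) → MvPolynomial (Fin n) ℂ) :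
    ∑ i, yy σ e i * w i = ∑ a, YY σ a * pa (e a) w := by
  simp only [yy, pa, Finset.sum_mul, Finset.mul_sum]
  rw [Finset.sum_comm]
  exact Finset.sum_congr rfl fun a _ => Finset.sum_congr rfl fun i _ => mul_assoc _ _ _

theorem sum_vv (w : Fin (n + 2) → MvPolynomial (Fin n) ℂ) :
    ∑ i, vv σ p0 f i * w i = pa p0 w + ∑ t, X (σ (Sum.inr t)) * pa (f t) w := by
  simp only [vv, pa, add_mul, Finset.sum_add_distrib, Finset.sum_mul, Finset.mul_sum]
  congr 1
  rw [Finset.sum_comm]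
  exact Finset.sum_congr rfl fun a _ => Finset.sum_congr rfl fun i _ => mul_assoc _ _ _

theorem lf_yy (L : (Fin (n + 2) → ℂ) →ₗ[ℂ] ℂ) :
    lf L (yy σ e) = ∑ a, YY σ a * algebraMap ℂ _ (L (e a)) := by
  have h1 : lf L (yy σ e) = ∑ a, lf L (fun i => YY σ a * algebraMap ℂ _ (e a i)) :=
    lf_sum L Finset.univ fun a i => YY σ a * algebraMap ℂ _ (e a i)
  rw [h1]
  exact Finset.sum_congr rfl fun a _ => by rw [lf_smul, lf_const]

theorem lf_vv (L : (Fin (n + 2) → ℂ) →ₗ[ℂ] ℂ) :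
    lf L (vv σ p0 f) = algebraMap ℂ _ (L p0) +
      ∑ t, X (σ (Sum.inr t)) * algebraMap ℂ _ (L (f t)) := by
  have h1 : lf L (vv σ p0 f) = lf L (fun i => algebraMap ℂ (MvPolynomial (Fin n) ℂ) (p0 i)) +
      lf L (fun i => ∑ t, X (σ (Sum.inr t)) * algebraMap ℂ _ (f t i)) := lf_add L _ _
  rw [h1, lf_const]
  congr 1
  have h2 : lf L (fun i => ∑ t, X (σ (Sum.inr t)) * algebraMap ℂ (MvPolynomial (Fin n) ℂ) (f t i)) =
      ∑ t, lf L (fun i => X (σ (Sum.inr t)) * algebraMap ℂ (MvPolynomial (Fin n) ℂ) (f t i)) :=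
    lf_sum L Finset.univ fun t i => X (σ (Sum.inr t)) * algebraMap ℂ _ (f t i)
  rw [h2]
  exact Finset.sum_congr rfl fun a _ => by rw [lf_smul, lf_const]

theorem sum_zz (R : MvPolynomial (Fin n) ℂ) (cc : Fin (k' + 1) → MvPolynomial (Fin n) ℂ)
    (z : Fin (n + 2) → MvPolynomial (Fin n) ℂ)
    (hz : ∀ i, z i = R * vv σ p0 f i + ∑ a, cc a * C (e a i))
    (w : Fin (n + 2) → MvPolynomial (Fin n) ℂ) : ∑ i, z i * w i =
      R * (∑ i, vv σ p0 f i * w i) + ∑ a, cc a * pa (e a) w := by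
  simp only [hz, pa, add_mul, Finset.sum_add_distrib, Finset.sum_mul, Finset.mul_sum]
  congr 1
  · exact Finset.sum_congr rfl fun i _ => mul_assoc _ _ _
  · rw [Finset.sum_comm]
    exact Finset.sum_congr rfl fun a _ => Finset.sum_congr rfl fun i _ => mul_assoc _ _ _

/-- the coordinates of the point of the general fibre -/
theorem lf_zz (b : Basis (Option (Fin (k' + 1)) ⊕ τ) ℂ (Fin (n + 2) → ℂ))
    (hbe : ∀ a, b (Sum.inl (some a)) = e a) (hb0 : b (Sum.inl none) = p0)
    (hbf : ∀ t, b (Sum.inr t) = f t)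
    (R : MvPolynomial (Fin n) ℂ) (cc : Fin (k' + 1) → MvPolynomial (Fin n) ℂ)
    (z : Fin (n + 2) → MvPolynomial (Fin n) ℂ)
    (hz : ∀ i, z i = R * vv σ p0 f i + ∑ a, cc a * C (e a i))
    (j : Option (Fin (k' + 1)) ⊕ τ) :
    lf (b.coord j) z = Sum.elim (fun o => Option.elim o R cc)
      (fun t => R * X (σ (Sum.inr t))) j := by
  classical
  have h0 : lf (b.coord j) z = R * lf (b.coord j) (vv σ p0 f) +
      ∑ a, cc a * algebraMap ℂ _ (b.coord j (e a)) := by
    have h1 : z = fun i => R * vv σ p0 f i + ∑ a, cc a * algebraMap ℂ _ (e a i) := funext hz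
    rw [h1, lf_add, lf_smul]
    congr 1
    rw [lf_sum (b.coord j) Finset.univ fun a i => cc a * algebraMap ℂ _ (e a i)]
    exact Finset.sum_congr rfl fun a _ => by rw [lf_smul, lf_const]
  rw [h0, lf_vv]
  simp only [← hb0, ← hbe, ← hbf, Basis.coord_apply, Basis.repr_self]
  rcases j with ((_ | a) | t)
  · simp
  · simp [Finsupp.single_apply]
  · simp [Finsupp.single_apply]

theorem alg_sum {P : Type} [CommRing P] [Algebra ℂ P] {m : ℕ} {κ : Type} [Fintype κ]
    (w v : Fin m → P) (dR R : P) (g : Fin m → ℂ) (dc : κ → P) (e : κ → Fin m → ℂ) :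
    ∑ i, w i * (dR * v i + R * algebraMap ℂ P (g i) + ∑ a, dc a * algebraMap ℂ P (e a i)) =
      dR * (∑ i, v i * w i) + R * pa g w + ∑ a, dc a * pa (e a) w := by
  simp only [pa, mul_add, Finset.sum_add_distrib, Finset.mul_sum]
  have h1 : ∑ i, w i * (dR * v i) = ∑ i, dR * (v i * w i) :=
    Finset.sum_congr rfl fun i _ => by ring
  have h2 : ∑ i, w i * (R * algebraMap ℂ P (g i)) = ∑ i, R * (algebraMap ℂ P (g i) * w i) :=
    Finset.sum_congr rfl fun i _ => by ring
  have h3 : ∑ i, ∑ a, w i * (dc a * algebraMap ℂ P (e a i)) =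
      ∑ a, ∑ i, dc a * (algebraMap ℂ P (e a i) * w i) := by
    rw [Finset.sum_comm]
    exact Finset.sum_congr rfl fun a _ => Finset.sum_congr rfl fun i _ => by ring
  rw [h1, h2, h3]

/-- the first coefficient does not vanish -/
theorem B_ne {F : MvPolynomial (Fin (n + 2)) ℂ} (hF : F.IsHomogeneous 3)
    (hsm : ∀ z : Fin (n + 2) → ℂ, (∀ i, eval z (pderiv i F) = 0) → z = 0)
    (b : Basis (Option (Fin (k' + 1)) ⊕ τ) ℂ (Fin (n + 2) → ℂ))
    (hbe : ∀ a, b (Sum.inl (some a)) = e a) (hb0 : b (Sum.inl none) = p0)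
    (hbf : ∀ t, b (Sum.inr t) = f t) (hyF : aeval (yy σ e) F = 0)
    (R : MvPolynomial (Fin n) ℂ) (cc : Fin (k' + 1) → MvPolynomial (Fin n) ℂ) (hR : R ≠ 0)
    (z : Fin (n + 2) → MvPolynomial (Fin n) ℂ)
    (hz : ∀ i, z i = R * vv σ p0 f i + ∑ a, cc a * C (e a i)) :
    (∑ i, z i * aeval (yy σ e) (pderiv i F)) ≠ 0 := by
  intro hB
  have hsumz := sum_zz σ p0 f e R cc z hz
  have hY0 : YY σ (0 : Fin (k' + 1)) = 1 := rfl
  set w : Fin (n + 2) → MvPolynomial (Fin n) ℂ := fun i => aeval (yy σ e) (pderiv i F) with hw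
  have hTs : ∀ a : Fin k', pa (e a.succ) w = 0 := by
    intro a
    have h1 := chain_rule (pderiv (σ (Sum.inl a))) (yy σ e) F
    rw [hyF, map_zero] at h1
    rw [h1, pa]
    exact Finset.sum_congr rfl fun i _ => by rw [d_yy, mul_comm]; rfl
  have hT0 : pa (e 0) w = 0 := by
    have h1 := euler3 hF (yy σ e) hyF
    have h2 := sum_yy σ e w
    rw [hw] at h2
    rw [h1, Fin.sum_univ_succ, hY0, one_mul] at h2
    rw [Finset.sum_eq_zero (fun a _ => by rw [hTs, mul_zero]), add_zero] at h2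
    exact h2.symm
  have hT : ∀ a, pa (e a) w = 0 := fun a => Fin.cases hT0 hTs a
  have hcw : ∑ a, cc a * pa (e a) w = 0 := Finset.sum_eq_zero fun a _ => by rw [hT, mul_zero]
  have hS : ∑ i, vv σ p0 f i * w i = 0 := by
    have h1 := hsumz w
    rw [hB, hcw, add_zero] at h1
    exact (mul_eq_zero.1 h1.symm).resolve_left hR
  have hTf : ∀ t, pa (f t) w = 0 := by
    intro t
    have h1 := congrArg (pderiv (σ (Sum.inr t))) hS
    rw [map_zero, map_sum] at h1
    rw [← h1, pa]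
    refine Finset.sum_congr rfl fun i _ => ?_
    rw [pderiv_mul, d_vv, hw]
    simp only
    rw [d_aeval _ _ (fun i => d_vy σ e t i), mul_zero, add_zero]
    rfl
  have hT00 : pa p0 w = 0 := by
    rw [sum_vv, Finset.sum_eq_zero (fun t _ => by rw [hTf, mul_zero]), add_zero] at hS
    exact hS
  have hw0 : w = 0 := by
    refine zero_of_basis b w ?_
    rintro ((_ | a) | t)
    · rw [hb0]
      exact hT00
    · rw [hbe]
      exact hT a
    · rw [hbf]
      exact hTf t
  have hy0 : yy σ e = 0 := zero_of_partials hsm (yy σ e) fun i => congrFun hw0 i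
  have h1 := lf_yy σ e (b.coord (Sum.inl (some 0)))
  rw [hy0, Fin.sum_univ_succ, hY0, one_mul, ← hbe 0, Basis.coord_apply, Basis.repr_self,
    Finsupp.single_eq_same, map_one] at h1
  rw [Finset.sum_eq_zero (fun a _ => by
    rw [← hbe, Basis.coord_apply, Basis.repr_self, Finsupp.single_eq_of_ne, map_zero, mul_zero]
    intro h
    exact Fin.succ_ne_zero a (Option.some_injective _ (Sum.inl_injective h)).symm), add_zero] at h1
  simp [lf] at h1

/-- the second coefficient does not vanish -/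
theorem A_ne {F : MvPolynomial (Fin (n + 2)) ℂ} (hF : F.IsHomogeneous 3)
    (hsm : ∀ z : Fin (n + 2) → ℂ, (∀ i, eval z (pderiv i F) = 0) → z = 0)
    (b : Basis (Option (Fin (k' + 1)) ⊕ τ) ℂ (Fin (n + 2) → ℂ))
    (hbe : ∀ a, b (Sum.inl (some a)) = e a) (hb0 : b (Sum.inl none) = p0)
    (hbf : ∀ t, b (Sum.inr t) = f t)
    (R : MvPolynomial (Fin n) ℂ) (cc : Fin (k' + 1) → MvPolynomial (Fin n) ℂ) (hR : R ≠ 0)
    (hRd : ∀ a, pderiv (σ (Sum.inl a)) R = 0)
    (hcd : ∀ a a', pderiv (σ (Sum.inl a)) (cc a') = 0)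
    (z : Fin (n + 2) → MvPolynomial (Fin n) ℂ)
    (hz : ∀ i, z i = R * vv σ p0 f i + ∑ a, cc a * C (e a i)) (hzF : aeval z F = 0) :
    (∑ i, yy σ e i * aeval z (pderiv i F)) ≠ 0 := by
  intro hA
  have hsumz := sum_zz σ p0 f e R cc z hz
  have hY0 : YY σ (0 : Fin (k' + 1)) = 1 := rfl
  set w : Fin (n + 2) → MvPolynomial (Fin n) ℂ := fun i => aeval z (pderiv i F) with hw
  have hzd : ∀ a i, pderiv (σ (Sum.inl a)) (z i) = 0 := by
    intro a i
    rw [hz, map_add, pderiv_mul, hRd, d_yv, map_sum, zero_mul, mul_zero, zero_add, zero_add]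
    exact Finset.sum_eq_zero fun a' _ => by
      rw [pderiv_mul, hcd, zero_mul, pderiv_C, mul_zero, zero_add]
  have hTs : ∀ a : Fin k', pa (e a.succ) w = 0 := by
    intro a
    have h1 := congrArg (pderiv (σ (Sum.inl a))) hA
    rw [map_zero, map_sum] at h1
    rw [← h1, pa]
    refine Finset.sum_congr rfl fun i _ => ?_
    rw [pderiv_mul, d_yy, d_aeval _ _ (hzd a), mul_zero, add_zero]
    rfl
  have hT0 : pa (e 0) w = 0 := by
    have h2 := sum_yy σ e w
    rw [hw] at h2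
    rw [hA, Fin.sum_univ_succ, hY0, one_mul] at h2
    rw [Finset.sum_eq_zero (fun a _ => by rw [hTs, mul_zero]), add_zero] at h2
    exact h2.symm
  have hT : ∀ a, pa (e a) w = 0 := fun a => Fin.cases hT0 hTs a
  have hcw : ∑ a, cc a * pa (e a) w = 0 := Finset.sum_eq_zero fun a _ => by rw [hT, mul_zero]
  have hS : ∑ i, vv σ p0 f i * w i = 0 := by
    have h1 := hsumz w
    rw [hcw, add_zero, show ∑ i, z i * w i = 0 from euler3 hF z hzF] at h1
    exact (mul_eq_zero.1 h1.symm).resolve_left hR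
  have hTf : ∀ t, pa (f t) w = 0 := by
    intro t
    have h1 := chain_rule (pderiv (σ (Sum.inr t))) z F
    rw [hzF, map_zero] at h1
    have h2 : ∀ i, pderiv (σ (Sum.inr t)) (z i) =
        pderiv (σ (Sum.inr t)) R * vv σ p0 f i + R * C (f t i) +
          ∑ a, pderiv (σ (Sum.inr t)) (cc a) * C (e a i) := by
      intro i
      rw [hz, map_add, pderiv_mul, d_vv, map_sum]
      congr 1
      exact Finset.sum_congr rfl fun a _ => by rw [pderiv_mul, pderiv_C, mul_zero, add_zero]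
    have h3 : ∑ i, w i * pderiv (σ (Sum.inr t)) (z i) =
        pderiv (σ (Sum.inr t)) R * (∑ i, vv σ p0 f i * w i) + R * pa (f t) w +
          ∑ a, pderiv (σ (Sum.inr t)) (cc a) * pa (e a) w := by
      rw [← alg_sum w (vv σ p0 f) (pderiv (σ (Sum.inr t)) R) R (f t)
        (fun a => pderiv (σ (Sum.inr t)) (cc a)) e]
      exact Finset.sum_congr rfl fun i _ => by rw [h2 i]; rfl
    have h4 : ∑ a, pderiv (σ (Sum.inr t)) (cc a) * pa (e a) w = 0 :=
      Finset.sum_eq_zero fun a _ => by rw [hT, mul_zero]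
    have h5 : ∑ i, w i * pderiv (σ (Sum.inr t)) (z i) = 0 := h1.symm
    rw [h5, hS, mul_zero, zero_add, h4, add_zero] at h3
    exact (mul_eq_zero.1 h3.symm).resolve_left hR
  have hT00 : pa p0 w = 0 := by
    rw [sum_vv, Finset.sum_eq_zero (fun t _ => by rw [hTf, mul_zero]), add_zero] at hS
    exact hS
  have hw0 : w = 0 := by
    refine zero_of_basis b w ?_
    rintro ((_ | a) | t)
    · rw [hb0]
      exact hT00
    · rw [hbe]
      exact hT a
    · rw [hbf]
      exact hTf t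
  have hz0 : z = 0 := zero_of_partials hsm z fun i => congrFun hw0 i
  have h1 := lf_zz σ p0 f e b hbe hb0 hbf R cc z hz (Sum.inl none)
  rw [hz0] at h1
  simp [lf] at h1
  exact hR h1.symm

end

end

end Pool.Agent.Q285.UL
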